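import Pool.Agent.H490R3.LH.Fin3

set_option autoImplicit false

/-!
# The first levels of the refined high hierarchy are proper relative to a random oracle
-/

namespace Pool.Agent.Results.MP_a76659_lc.HighOneDeltaTwo

open MeasureTheory Pool.Agent.H628R3.RO Pool.Agent.H490R3.LH

/-- For almost every oracle `X`, relative to `X`: the polynomial hierarchy is infinite, the class
`Ĥ₁` is a proper subclass of `H₁`, and the class `H₁` is a proper subclass of `Ĥ₂`. -/
theorem result : ∀ᵐ X ∂randomOracle,
    (∀ k, ∃ L, Sig X (k + 1) L ∧ ¬ Sig X k L) ∧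
    HighD X 1 ⊂ High X 1 ∧ High X 1 ⊂ HighD X 2 := by
  filter_upwards [ph_infinite, main_two] with X h0 h
  exact ⟨h0, h⟩

end Pool.Agent.Results.MP_a76659_lc.HighOneDeltaTwo
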