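import Pool.Agent.H490R3.LH.Fin3

set_option autoImplicit false

/-!
# The first levels of the refined low hierarchy are proper relative to a random oracle
-/

namespace Pool.Agent.Results.MP_a76659_lc.RandomOracleLow

open MeasureTheory Pool.Agent.H628R3.RO Pool.Agent.H490R3.LH

/-- For almost every oracle `X`, relative to `X`: the polynomial hierarchy is infinite, the class
`L̂₁` is a proper subclass of `L₁`, the class `L₁` is a proper subclass of `L̂₂`, and `L₂` is a
proper subclass of `L̂₃`. -/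
theorem result : ∀ᵐ X ∂randomOracle,
    (∀ k, ∃ L, Sig X (k + 1) L ∧ ¬ Sig X k L) ∧
    LowD X 1 ⊂ Low X 1 ∧ Low X 1 ⊂ LowD X 2 ∧ LowD X 2 ⊆ Low X 2 ∧ Low X 2 ⊂ LowD X 3 := by
  filter_upwards [ph_infinite, main_one] with X h0 h
  exact ⟨h0, h.1, h.2.1, (p_INC X 1).2.1, h.2.2.1.2.2⟩

end Pool.Agent.Results.MP_a76659_lc.RandomOracleLow
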